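import Pool.Agent.H68.LCS.Targets

/-!
# MP_5607ba_lc, canonical labels, row SME: the selected point is a Borel function
-/

set_option autoImplicit false

namespace Pool.Agent.H96.LCS

open Set Filter Topology
open scoped Pointwise
open Pool.Agent.H93.CP Pool.Agent.H7.LP Pool.Agent.H7.LQ Pool.Agent.H68.LCS

theorem pf_SME (h1 : T_PRJ) (h2 : T_KCP) (h3 : T_MPT) : T_SME := by
  intro Γ F _ _ _ _ _ _ _ _ _ _ D B t
  have hC : IsCompact D.C := ((D.cpt 0).union (D.cpt 0).inv).union isCompact_singleton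
  change Measurable fun y => slp B (KS D B t y) y
  refine h3 F F B (fun y => KS D B t y) (fun y => y) (fun y => (h2 Γ F D B t y).1) ?_ measurable_id
  intro A hA
  have hE : IsClosed {p : F × Γ | p.2 • p.1 ∈ closure (B.U t) ∩ A} :=
    (isClosed_closure.inter hA).preimage (continuous_snd.smul continuous_fst)
  have hc := h1 F Γ (D.C * D.C) _ (hC.mul hC) hE
  have e : {w : F | (KS D B t w ∩ A).Nonempty} =
      {a | ∃ g ∈ D.C * D.C, (a, g) ∈ {p : F × Γ | p.2 • p.1 ∈ closure (B.U t) ∩ A}} := by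
    ext w
    constructor
    · rintro ⟨z, ⟨hz, h, hh, rfl⟩, hzA⟩
      exact ⟨h, hh, hz, hzA⟩
    · rintro ⟨h, hh, hz, hzA⟩
      exact ⟨h • w, ⟨hz, h, hh, rfl⟩, hzA⟩
  rw [e]
  exact hc.measurableSet

end Pool.Agent.H96.LCS
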